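import Pool.Agent.R665.IA.Stage

set_option autoImplicit false

namespace Pool.Agent.R665.IA

open Nat.Partrec (Code)
open Nat.Partrec.Code

section basic

variable {α : Type*} [Primcodable α]

/-- a function given by a computable test with a unique solution is computable -/
theorem comp_of_unique {F : α → ℕ} {P : α → ℕ → Bool} (hP : Computable₂ P)
    (h : ∀ a k, P a k = true ↔ k = F a) : Computable F := by
  have h1 : Partrec fun a => Nat.rfind (fun k => Part.some (P a k)) := by
    refine Partrec.rfind ?_
    exact hP.partrec₂
  refine h1.of_eq_tot (fun a => ?_)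
  rw [Nat.mem_rfind]
  refine ⟨?_, fun {m} hm => ?_⟩
  · rw [Part.mem_some_iff]; exact ((h a _).2 rfl).symm
  · rw [Part.mem_some_iff]
    have : ¬ P a m = true := fun e => absurd ((h a m).1 e) hm.ne
    simpa using this

/-- a function given by search with a computable test is computable -/
theorem exists_search {P : α → ℕ → Bool} (hP : Computable₂ P) (h : ∀ a, ∃ k, P a k = true) :
    ∃ F : α → ℕ, Computable F ∧ ∀ a, P a (F a) = true := by
  classical
  refine ⟨fun a => Nat.find (h a), ?_, fun a => Nat.find_spec (h a)⟩
  have h1 : Partrec fun a => Nat.rfind (fun k => Part.some (P a k)) := by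
    refine Partrec.rfind ?_
    exact hP.partrec₂
  refine h1.of_eq_tot (fun a => ?_)
  rw [Nat.mem_rfind]
  refine ⟨?_, fun {m} hm => ?_⟩
  · rw [Part.mem_some_iff]; exact (Nat.find_spec (h a)).symm
  · rw [Part.mem_some_iff]
    have : ¬ P a m = true := Nat.find_min (h a) hm
    simpa using this

theorem comp_and {f g : α → Bool} (hf : Computable f) (hg : Computable g) :
    Computable (fun a => f a && g a) := (Primrec.and.to_comp).comp hf hg

theorem comp_xor {f g : α → Bool} (hf : Computable f) (hg : Computable g) :
    Computable (fun a => xor (f a) (g a)) := by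
  have : Primrec₂ (fun a b : Bool => xor a b) := Primrec₂.mk (Primrec.dom_finite _)
  exact this.to_comp.comp hf hg

theorem comp_not {f : α → Bool} (hf : Computable f) :
    Computable (fun a => !(f a)) := (Primrec.not.to_comp).comp hf

theorem comp_beq {f g : α → Bool} (hf : Computable f) (hg : Computable g) :
    Computable (fun a => f a == g a) := by
  have : Primrec₂ (fun a b : Bool => a == b) := Primrec₂.mk (Primrec.dom_finite _)
  exact this.to_comp.comp hf hg

theorem comp_lt {f g : α → ℕ} (hf : Computable f) (hg : Computable g) :
    Computable (fun a => decide (f a < g a)) := by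
  have : Primrec₂ (fun a b : ℕ => decide (a < b)) := Primrec.nat_lt.decide
  exact this.to_comp.comp hf hg

theorem comp_le {f g : α → ℕ} (hf : Computable f) (hg : Computable g) :
    Computable (fun a => decide (f a ≤ g a)) := by
  have : Primrec₂ (fun a b : ℕ => decide (a ≤ b)) := Primrec.nat_le.decide
  exact this.to_comp.comp hf hg

theorem comp_eq {f g : α → ℕ} (hf : Computable f) (hg : Computable g) :
    Computable (fun a => decide (f a = g a)) := by
  have : Primrec₂ (fun a b : ℕ => decide (a = b)) := Primrec.eq.decide
  exact this.to_comp.comp hf hg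

theorem comp_add {f g : α → ℕ} (hf : Computable f) (hg : Computable g) :
    Computable (fun a => f a + g a) := (Primrec.nat_add.to_comp).comp hf hg

/-- bounded universal quantification of a computable test -/
def ball (q : ℕ → Bool) (N : ℕ) : Bool := Nat.rec true (fun i acc => acc && q i) N

theorem ball_iff (q : ℕ → Bool) (N : ℕ) : ball q N = true ↔ ∀ i < N, q i = true := by
  induction N with
  | zero => simp [ball]
  | succ n ih =>
      have : ball q (n + 1) = (ball q n && q n) := rfl
      rw [this, Bool.and_eq_true, ih]
      constructor
      · rintro ⟨h1, h2⟩ i hi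
        rcases Nat.lt_succ_iff_lt_or_eq.1 hi with h | h
        · exact h1 i h
        · rw [h]; exact h2
      · intro h
        exact ⟨fun i hi => h i (hi.trans (Nat.lt_succ_self n)), h n (Nat.lt_succ_self n)⟩

theorem comp_ball {q : α → ℕ → Bool} {N : α → ℕ} (hq : Computable₂ q) (hN : Computable N) :
    Computable (fun a => ball (q a) (N a)) := by
  unfold ball
  refine Computable.nat_rec (h := fun a (p : ℕ × Bool) => p.2 && q a p.1) hN
    (Computable.const true) ?_
  refine Computable₂.mk ?_
  refine comp_and (Computable.snd.comp Computable.snd) ?_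
  exact hq.comp Computable.fst (Computable.fst.comp Computable.snd)

/-- parity of a bounded count -/
def par (q : ℕ → Bool) (N : ℕ) : Bool := Nat.rec false (fun i acc => xor acc (q i)) N

theorem par_iff (q : ℕ → Bool) (N : ℕ) :
    par q N = true ↔ Odd ((Finset.range N).filter (fun i => q i = true)).card := by
  induction N with
  | zero => simp [par]
  | succ n ih =>
      have h0 : par q (n + 1) = xor (par q n) (q n) := rfl
      rw [h0, Finset.range_add_one, Finset.filter_insert]
      by_cases h : q n = true
      · rw [if_pos h, Finset.card_insert_of_notMem (by simp), Nat.odd_add_one, ← ih, h]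
        simp
      · rw [if_neg h, ← ih]
        simp only [Bool.not_eq_true] at h
        rw [h]; simp

theorem comp_par {q : α → ℕ → Bool} {N : α → ℕ} (hq : Computable₂ q) (hN : Computable N) :
    Computable (fun a => par (q a) (N a)) := by
  unfold par
  refine Computable.nat_rec (h := fun a (p : ℕ × Bool) => xor p.2 (q a p.1)) hN
    (Computable.const false) ?_
  refine Computable₂.mk ?_
  refine comp_xor (Computable.snd.comp Computable.snd) ?_
  exact hq.comp Computable.fst (Computable.fst.comp Computable.snd)

theorem iter_div2 (n i : ℕ) : Nat.bodd (Nat.rec n (fun _ r => Nat.div2 r) i : ℕ) = n.testBit i := by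
  have : ∀ i, (Nat.rec n (fun _ r => Nat.div2 r) i : ℕ) = n / 2 ^ i := by
    intro i
    induction i with
    | zero => simp
    | succ i ih =>
        have : (Nat.rec n (fun _ r => Nat.div2 r) (i + 1) : ℕ)
          = Nat.div2 (Nat.rec n (fun _ r => Nat.div2 r) i : ℕ) := rfl
        rw [this, ih, Nat.div2_val, pow_succ, Nat.div_div_eq_div_mul]
  rw [this, Nat.testBit_eq_decide_div_mod_eq]
  have h2 := Nat.mod_two_of_bodd (n / 2 ^ i)
  cases h : (n / 2 ^ i).bodd <;> simp [h] at h2 ⊢ <;> omega

theorem comp_testBit {f g : α → ℕ} (hf : Computable f) (hg : Computable g) :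
    Computable (fun a => (f a).testBit (g a)) := by
  have h1 : Computable (fun a => (Nat.rec (f a) (fun _ r => Nat.div2 r) (g a) : ℕ)) := by
    refine Computable.nat_rec (h := fun _ (p : ℕ × ℕ) => Nat.div2 p.2) hg hf ?_
    refine Computable₂.mk ?_
    exact Computable.nat_div2.comp (Computable.snd.comp Computable.snd)
  exact (Computable.nat_bodd.comp h1).of_eq (fun a => iter_div2 _ _)

end basic

end Pool.Agent.R665.IA
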