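import Pool.Agent.R665.IA.Main

set_option autoImplicit false

namespace Pool.Agent.R665.IA

open Nat.Partrec (Code)
open Nat.Partrec.Code

/-- halting within `k` steps -/
def hb (n k : ℕ) : Bool := (evaln k (Denumerable.ofNat Code n) 0).isSome

theorem comp_hb {α : Type*} [Primcodable α] {f h : α → ℕ}
    (hf : Computable f) (hh : Computable h) : Computable (fun a => hb (f a) (h a)) := by
  unfold hb
  have h1 : Computable (fun a => evaln (h a) (Denumerable.ofNat Code (f a)) 0) :=
    primrec_evaln.to_comp.comp
      ((hh.pair ((Computable.ofNat Code).comp hf)).pair (Computable.const 0))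
  exact (Primrec.option_isSome.to_comp).comp h1

/-- halting at exactly `k` steps -/
def hx (n k : ℕ) : Bool := hb n k && ball (fun j => !(hb n j)) k

theorem comp_hx {α : Type*} [Primcodable α] {f h : α → ℕ}
    (hf : Computable f) (hh : Computable h) : Computable (fun a => hx (f a) (h a)) := by
  unfold hx
  refine comp_and (comp_hb hf hh) (comp_ball (q := fun a j => !(hb (f a) j)) ?_ hh)
  exact Computable₂.mk (comp_not (comp_hb (hf.comp Computable.fst) Computable.snd))

theorem hx_unique {n k l : ℕ} (h1 : hx n k = true) (h2 : hx n l = true) : k = l := by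
  unfold hx at h1 h2
  rw [Bool.and_eq_true, ball_iff] at h1 h2
  rcases lt_trichotomy k l with h | h | h
  · have := h2.2 k h
    rw [h1.1] at this; simp at this
  · exact h
  · have := h1.2 l h
    rw [h2.1] at this; simp at this

/-- the enumeration -/
def en (s : ℕ) : ℕ := cond (hx s.unpair.1 s.unpair.2) (2 * s.unpair.1 + 1) (2 * s)

/-- shifted enumeration starting with its least value -/
def gg (s : ℕ) : ℕ := Nat.casesOn s 0 (fun t => en t + 1)

theorem comp_en : Computable en := by
  unfold en
  have a1 : Computable (fun s : ℕ => s.unpair.1) := Computable.fst.comp Computable.unpair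
  have a2 : Computable (fun s : ℕ => s.unpair.2) := Computable.snd.comp Computable.unpair
  have dbl : Computable (fun s : ℕ => 2 * s) :=
    (Primrec.nat_mul.comp (Primrec.const 2) Primrec.id).to_comp
  exact Computable.cond (comp_hx a1 a2) (Computable.succ.comp (dbl.comp a1)) dbl

theorem comp_gg : Computable gg := by
  unfold gg
  exact Computable.nat_casesOn (h := fun _ t => en t + 1) Computable.id (Computable.const 0)
    (Computable₂.mk (Computable.succ.comp (comp_en.comp Computable.snd)))

theorem en_inj : Function.Injective en := by
  intro s t h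
  unfold en at h
  cases hs : hx s.unpair.1 s.unpair.2 <;> cases ht : hx t.unpair.1 t.unpair.2 <;>
    simp only [hs, ht, cond_true, cond_false] at h
  · omega
  · omega
  · omega
  · have h1 : s.unpair.1 = t.unpair.1 := by omega
    rw [h1] at hs
    have h2 := hx_unique hs ht
    rw [← Nat.pair_unpair s, ← Nat.pair_unpair t, h1, h2]

theorem gg_inj : Function.Injective gg := by
  intro s t h
  cases s with
  | zero =>
      cases t with
      | zero => rfl
      | succ t =>
          have : (0 : ℕ) = en t + 1 := h
          omega
  | succ s =>
      cases t with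
      | zero =>
          have : en s + 1 = 0 := h
          omega
      | succ t =>
          have : en s + 1 = en t + 1 := h
          have h2 : en s = en t := by omega
          rw [en_inj h2]

theorem gg_zero : Tr gg 0 := by
  intro t ht
  cases t with
  | zero => exact absurd ht (lt_irrefl _)
  | succ t => exact Nat.succ_pos _

theorem dom_iff (c : Code) : (eval c 0).Dom ↔ ∃ s, gg s = 2 * Encodable.encode c + 2 := by
  classical
  constructor
  · intro h
    obtain ⟨v, hv⟩ := Part.dom_iff_mem.1 h
    obtain ⟨k, hk⟩ := evaln_complete.1 hv
    have hex : ∃ k, hb (Encodable.encode c) k = true := by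
      refine ⟨k, ?_⟩
      unfold hb
      rw [Denumerable.ofNat_encode]
      exact Option.isSome_iff_exists.2 ⟨v, hk⟩
    have h1 : hx (Encodable.encode c) (Nat.find hex) = true := by
      unfold hx
      rw [Bool.and_eq_true, ball_iff]
      refine ⟨Nat.find_spec hex, fun j hj => ?_⟩
      have := Nat.find_min hex hj
      simpa using this
    refine ⟨Nat.pair (Encodable.encode c) (Nat.find hex) + 1, ?_⟩
    show en _ + 1 = _
    unfold en
    rw [Nat.unpair_pair]
    simp only [h1, cond_true]
  · rintro ⟨s, hs⟩
    cases s with
    | zero =>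
        have : (0 : ℕ) = 2 * Encodable.encode c + 2 := hs
        omega
    | succ s =>
        have h1 : en s + 1 = 2 * Encodable.encode c + 2 := hs
        unfold en at h1
        cases h2 : hx s.unpair.1 s.unpair.2 <;> simp only [h2, cond_true, cond_false] at h1
        · omega
        · have h3 : s.unpair.1 = Encodable.encode c := by omega
          rw [h3] at h2
          unfold hx at h2
          rw [Bool.and_eq_true] at h2
          have h4 := h2.1
          unfold hb at h4
          rw [Denumerable.ofNat_encode] at h4
          obtain ⟨v, hv⟩ := Option.isSome_iff_exists.1 h4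
          exact Part.dom_iff_mem.2 ⟨v, evaln_sound hv⟩

theorem not_comp_Tr (T : ℕ → Bool) (hT : Computable T) : ¬ ∀ s, T s = true ↔ Tr gg s := by
  intro h
  have hP : Computable₂ (fun (c : Code) (s : ℕ) =>
      T s && decide (2 * Encodable.encode c + 2 < gg s)) := by
    refine Computable₂.mk ?_
    have hB : Computable (fun c : Code => 2 * Encodable.encode c + 2) :=
      Computable.succ.comp (Computable.succ.comp
        ((Primrec.nat_mul.comp (Primrec.const 2) Primrec.encode).to_comp))
    exact comp_and (hT.comp Computable.snd)
      (comp_lt (hB.comp Computable.fst) (comp_gg.comp Computable.snd))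
  have hex : ∀ c : Code, ∃ s, (T s && decide (2 * Encodable.encode c + 2 < gg s)) = true := by
    intro c
    have hfin : (gg ⁻¹' (Set.Iic (2 * Encodable.encode c + 2))).Finite :=
      Set.Finite.preimage gg_inj.injOn (Set.finite_Iic _)
    obtain ⟨N, hN⟩ := hfin.bddAbove
    obtain ⟨s, hs1, hs2⟩ := exists_Tr gg_inj (N + 1)
    refine ⟨s, ?_⟩
    rw [Bool.and_eq_true, decide_eq_true_iff]
    refine ⟨(h s).2 hs2, ?_⟩
    by_contra hc
    have := hN (show s ∈ gg ⁻¹' (Set.Iic (2 * Encodable.encode c + 2)) from not_lt.1 hc)
    omega
  obtain ⟨F, hF, hF2⟩ := exists_search hP hex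
  have hB : Computable (fun c : Code => 2 * Encodable.encode c + 2) :=
      Computable.succ.comp (Computable.succ.comp
        ((Primrec.nat_mul.comp (Primrec.const 2) Primrec.encode).to_comp))
  have hD : Computable (fun c : Code =>
      !(ball (fun r => !(decide (gg r = 2 * Encodable.encode c + 2))) (F c + 1))) := by
    refine comp_not (comp_ball (q := fun (c : Code) r =>
      !(decide (gg r = 2 * Encodable.encode c + 2))) ?_ (Computable.succ.comp hF))
    exact Computable₂.mk (comp_not (comp_eq (comp_gg.comp Computable.snd)
      (hB.comp Computable.fst)))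
  refine ComputablePred.halting_problem 0 (ComputablePred.computable_iff.2 ⟨_, hD, ?_⟩)
  funext c
  rw [eq_iff_iff, dom_iff]
  have h3 : (!(ball (fun r => !(decide (gg r = 2 * Encodable.encode c + 2))) (F c + 1))) = true ↔
      ∃ r < F c + 1, gg r = 2 * Encodable.encode c + 2 := by
    rw [Bool.not_eq_true', ← Bool.not_eq_true, ball_iff]
    push Not
    simp
  rw [h3]
  constructor
  · rintro ⟨s, hs⟩
    refine ⟨s, ?_, hs⟩
    by_contra hc
    have h4 := hF2 c
    rw [Bool.and_eq_true, decide_eq_true_iff] at h4
    have h5 := (h _).1 h4.1 s (by omega)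
    omega
  · rintro ⟨s, _, hs⟩
    exact ⟨s, hs⟩

end Pool.Agent.R665.IA
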