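import Pool.Agent.R665.IA.Comp

set_option autoImplicit false

namespace Pool.Agent.R665.IA

open Nat.Partrec (Code)
open Nat.Partrec.Code

/-- a number as an element of the order -/
@[reducible] def mk (g : ℕ → ℕ) (x : ℕ) : TS g := x

/-- an element of the order as a number -/
@[reducible] def out {g : ℕ → ℕ} (x : TS g) : ℕ := x

def appB (g : ℕ → ℕ) (s t : ℕ) : Bool :=
  ball (fun r => !(decide (s < r)) || decide (g s < g r)) (t + 1)

theorem appB_iff (g : ℕ → ℕ) (s t : ℕ) : appB g s t = true ↔ App g s t := by
  unfold appB App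
  rw [ball_iff]
  constructor
  · intro h r h1 h2
    have := h r (Nat.lt_succ_of_le h2)
    simpa [h1] using this
  · intro h r hr
    by_cases h1 : s < r
    · simp [h1, h r h1 (Nat.le_of_lt_succ hr)]
    · simp [h1]

def leB (g : ℕ → ℕ) (s t : ℕ) : Bool :=
  (decide (s ≤ t) && appB g s t) || (decide (t < s) && !(appB g t s))

theorem leB_iff (g : ℕ → ℕ) (s t : ℕ) : leB g s t = true ↔ TLe g s t := by
  unfold leB TLe
  rw [Bool.or_eq_true, Bool.and_eq_true, Bool.and_eq_true, appB_iff, decide_eq_true_iff,
    decide_eq_true_iff]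
  have : (!(appB g t s)) = true ↔ ¬ App g t s := by
    rw [← appB_iff]; simp
  rw [this]

theorem comp_or {α : Type*} [Primcodable α] {f g : α → Bool} (hf : Computable f)
    (hg : Computable g) : Computable (fun a => f a || g a) := (Primrec.or.to_comp).comp hf hg

theorem comp_appB {g : ℕ → ℕ} (hg : Computable g) {α : Type*} [Primcodable α] {f h : α → ℕ}
    (hf : Computable f) (hh : Computable h) : Computable (fun a => appB g (f a) (h a)) := by
  unfold appB
  refine comp_ball (q := fun a r => !(decide (f a < r)) || decide (g (f a) < g r)) ?_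
    (Computable.succ.comp hh)
  refine Computable₂.mk ?_
  refine comp_or (comp_not (comp_lt (hf.comp Computable.fst) Computable.snd)) ?_
  exact comp_lt (hg.comp (hf.comp Computable.fst)) (hg.comp Computable.snd)

theorem comp_leB {g : ℕ → ℕ} (hg : Computable g) {α : Type*} [Primcodable α] {f h : α → ℕ}
    (hf : Computable f) (hh : Computable h) : Computable (fun a => leB g (f a) (h a)) := by
  unfold leB
  refine comp_or (comp_and (comp_le hf hh) (comp_appB hg hf hh)) ?_
  exact comp_and (comp_lt hh hf) (comp_not (comp_appB hg hh hf))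

/-- the finite set of cut points with code `n` -/
def SB (g : ℕ → ℕ) (n : ℕ) : Finset (TS g) := (Finset.equivBitIndices n : Finset ℕ)

theorem mem_SB (g : ℕ → ℕ) (n i : ℕ) : (mk g i) ∈ SB g n ↔ n.testBit i = true := by
  have : i ∈ (Finset.equivBitIndices n : Finset ℕ) ↔ n.testBit i = true := by
    rw [Finset.equivBitIndices_apply, List.mem_toFinset, Nat.mem_bitIndices]
  exact this

theorem lt_of_testBit {n i : ℕ} (h : n.testBit i = true) : i < n := by
  by_contra hc
  have h1 : n < 2 ^ i := lt_of_le_of_lt (not_lt.1 hc) Nat.lt_two_pow_self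
  rw [Nat.testBit_eq_false_of_lt h1] at h
  exact absurd h (by simp)

def memB (g : ℕ → ℕ) (n x : ℕ) : Bool := par (fun i => n.testBit i && leB g i x) n

theorem memB_iff (g : ℕ → ℕ) (n x : ℕ) : memB g n x = true ↔ (mk g x) ∈ X (SB g n) := by
  unfold memB
  rw [par_iff]
  have h2 : ((mk g x) ∈ X (SB g n)) ↔
    Odd ((SB g n).filter (fun s => s ≤ (mk g x))).card := Iff.rfl
  rw [h2]
  have : ((Finset.range n).filter (fun i => (n.testBit i && leB g i x) = true)).card
      = ((SB g n).filter (fun s : TS g => s ≤ mk g x)).card := by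
    refine Finset.card_bij (fun i _ => mk g i) ?_ ?_ ?_
    · intro i hi
      rw [Finset.mem_filter, Bool.and_eq_true, leB_iff] at hi
      rw [Finset.mem_filter, mem_SB, TS.le_iff]
      exact hi.2
    · intro a _ b _ h
      exact h
    · intro b hb
      rw [Finset.mem_filter, TS.le_iff] at hb
      have h1 := (mem_SB g n b).1 hb.1
      refine ⟨b, ?_, rfl⟩
      rw [Finset.mem_filter, Bool.and_eq_true, leB_iff, Finset.mem_range]
      exact ⟨lt_of_testBit h1, h1, hb.2⟩
  rw [this]

theorem comp_memB {g : ℕ → ℕ} (hg : Computable g) {α : Type*} [Primcodable α] {f h : α → ℕ}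
    (hf : Computable f) (hh : Computable h) : Computable (fun a => memB g (f a) (h a)) := by
  unfold memB
  refine comp_par (q := fun a i => (f a).testBit i && leB g i (h a)) ?_ hf
  refine Computable₂.mk ?_
  refine comp_and (comp_testBit (hf.comp Computable.fst) Computable.snd) ?_
  exact comp_leB hg Computable.snd (hh.comp Computable.fst)

/-- membership only depends on the position relative to the cut points -/
theorem exists_rep {L : Type*} [LinearOrder L] (E : Finset L) (x : L) :
    (∀ S ⊆ E, x ∉ X S) ∨ ∃ y ∈ E, ∀ S ⊆ E, (x ∈ X S ↔ y ∈ X S) := by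
  classical
  by_cases h : (E.filter (fun s => s ≤ x)).Nonempty
  · right
    refine ⟨(E.filter (fun s => s ≤ x)).max' h, ?_, ?_⟩
    · exact (Finset.mem_filter.1 (Finset.max'_mem _ h)).1
    · intro S hS
      have hy := (Finset.mem_filter.1 (Finset.max'_mem _ h)).2
      have : S.filter (fun s => s ≤ x)
          = S.filter (fun s => s ≤ (E.filter (fun s => s ≤ x)).max' h) := by
        ext s
        rw [Finset.mem_filter, Finset.mem_filter]
        constructor
        · rintro ⟨h1, h2⟩
          exact ⟨h1, Finset.le_max' _ _ (Finset.mem_filter.2 ⟨hS h1, h2⟩)⟩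
        · rintro ⟨h1, h2⟩
          exact ⟨h1, h2.trans hy⟩
      unfold X
      rw [Set.mem_ofPred_eq, Set.mem_ofPred_eq, this]
  · left
    intro S hS hx
    have : S.filter (fun s => s ≤ x) = ∅ := by
      ext s
      constructor
      · intro hs
        exact absurd ⟨s, Finset.mem_filter.2 ⟨hS (Finset.mem_filter.1 hs).1,
          (Finset.mem_filter.1 hs).2⟩⟩ h
      · intro hs; simp at hs
    have h2 : Odd (S.filter (fun s => s ≤ x)).card := hx
    rw [this] at h2
    simp at h2

def infT (g : ℕ → ℕ) (p : ℕ × ℕ) (k : ℕ) : Bool :=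
  ball (fun x => memB g k x == (memB g p.1 x && memB g p.2 x)) (p.1 + p.2 + k)

theorem infT_iff (g : ℕ → ℕ) (m n k : ℕ) :
    infT g (m, n) k = true ↔ X (SB g k) = X (SB g m) ∩ X (SB g n) := by
  unfold infT
  rw [ball_iff]
  have key : ∀ x : ℕ, ((memB g k x == (memB g m x && memB g n x)) = true) ↔
      ((mk g x) ∈ X (SB g k) ↔
        (mk g x) ∈ X (SB g m) ∩ X (SB g n)) := by
    intro x
    rw [Set.mem_inter_iff, ← memB_iff, ← memB_iff, ← memB_iff]
    cases memB g k x <;> cases memB g m x <;> cases memB g n x <;> simp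
  constructor
  · intro h
    classical
    ext x
    set E : Finset (TS g) := SB g m ∪ SB g n ∪ SB g k with hE
    have s1 : SB g m ⊆ E := fun y hy => by simp [hE, hy]
    have s2 : SB g n ⊆ E := fun y hy => by simp [hE, hy]
    have s3 : SB g k ⊆ E := fun y hy => by simp [hE, hy]
    rcases exists_rep E x with h1 | ⟨y, hy, h1⟩
    · rw [Set.mem_inter_iff]
      have a1 := h1 _ s1
      have a3 := h1 _ s3
      exact ⟨fun h => absurd h a3, fun h => absurd h.1 a1⟩
    · rw [Set.mem_inter_iff, h1 _ s1, h1 _ s2, h1 _ s3, ← Set.mem_inter_iff]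
      have hlt : (out y) < m + n + k := by
        rw [hE, Finset.mem_union, Finset.mem_union] at hy
        rcases hy with (hy | hy) | hy
        · have h9 : out y < m := lt_of_testBit ((mem_SB g m y).1 hy)
          omega
        · have h9 : out y < n := lt_of_testBit ((mem_SB g n y).1 hy)
          omega
        · have h9 : out y < k := lt_of_testBit ((mem_SB g k y).1 hy)
          omega
      exact (key y).1 (h y hlt)
  · intro h x _
    exact (key x).2 (by rw [h])

def cplT (g : ℕ → ℕ) (m k : ℕ) : Bool :=
  ball (fun x => memB g k x == !(memB g m x)) (m + k + 1)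

theorem cplT_iff (g : ℕ → ℕ) (h0 : Tr g 0) (m k : ℕ) :
    cplT g m k = true ↔ X (SB g k) = (X (SB g m))ᶜ := by
  unfold cplT
  rw [ball_iff]
  have key : ∀ x : ℕ, ((memB g k x == !(memB g m x)) = true) ↔
      ((mk g x) ∈ X (SB g k) ↔ (mk g x) ∈ (X (SB g m))ᶜ) := by
    intro x
    rw [Set.mem_compl_iff, ← memB_iff, ← memB_iff]
    cases memB g k x <;> cases memB g m x <;> simp
  constructor
  · intro h
    classical
    ext x
    set E : Finset (TS g) := insert (mk g 0) (SB g m ∪ SB g k) with hE
    have s0 : ({(mk g 0)} : Finset (TS g)) ⊆ E := fun y hy => by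
      rw [Finset.mem_singleton] at hy; simp [hE, hy]
    have s1 : SB g m ⊆ E := fun y hy => by simp [hE, hy]
    have s3 : SB g k ⊆ E := fun y hy => by simp [hE, hy]
    rcases exists_rep E x with h1 | ⟨y, hy, h1⟩
    · exact absurd ((mem_X_singleton _ _).2 (TS_bot h0 x)) (h1 _ s0)
    · rw [Set.mem_compl_iff, h1 _ s1, h1 _ s3, ← Set.mem_compl_iff]
      have hlt : (out y) < m + k + 1 := by
        rw [hE, Finset.mem_insert, Finset.mem_union] at hy
        rcases hy with hy | hy | hy
        · rw [hy]; exact Nat.succ_pos _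
        · have h9 : out y < m := lt_of_testBit ((mem_SB g m y).1 hy)
          omega
        · have h9 : out y < k := lt_of_testBit ((mem_SB g k y).1 hy)
          omega
      exact (key y).1 (h y hlt)
  · intro h x _
    exact (key x).2 (by rw [h])

/-- the algebra of finite and cofinite sets -/
def FCA (T : Type) : BooleanSubalgebra (Set T) where
  carrier := {A | FC A}
  supClosed' := fun _ hA _ hB => hA.union hB
  infClosed' := fun _ hA _ hB => hA.inter hB
  compl_mem' := fun hA => hA.compl
  bot_mem' := Or.inl Set.finite_empty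

theorem SB_bij (g : ℕ → ℕ) : Function.Bijective (SB g) :=
  (Finset.equivBitIndices : ℕ ≃ Finset ℕ).bijective

/-- the presentation -/
noncomputable def pres (g : ℕ → ℕ) (hg : Function.Injective g) (h0 : Tr g 0) :
    ℕ ≃ FCA (TS g) :=
  Equiv.ofBijective (fun n => ⟨X (SB g n), X_FC TS_fin _⟩) (by
    constructor
    · intro m n h
      have h1 : X (SB g m) = X (SB g n) := congrArg Subtype.val h
      exact (SB_bij g).1 (X_injective h1)
    · rintro ⟨A, hA⟩
      obtain ⟨S, hS⟩ := exists_X (mk g 0) (TS_bot h0) (TS_succ hg) hA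
      obtain ⟨n, hn⟩ := (SB_bij g).2 S
      refine ⟨n, ?_⟩
      apply Subtype.ext
      show X (SB g n) = A
      rw [hn, hS])

theorem pres_val (g : ℕ → ℕ) (hg : Function.Injective g) (h0 : Tr g 0) (n : ℕ) :
    ((pres g hg h0 n : FCA (TS g)) : Set (TS g)) = X (SB g n) := rfl

theorem comp_inf {g : ℕ → ℕ} (hc : Computable g) (hg : Function.Injective g) (h0 : Tr g 0) :
    Computable₂ (fun m n : ℕ => (pres g hg h0).symm (pres g hg h0 m ⊓ pres g hg h0 n)) := by
  refine Computable₂.mk ?_
  refine comp_of_unique (P := infT g) ?_ ?_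
  · refine Computable₂.mk ?_
    unfold infT
    refine comp_ball (α := (ℕ × ℕ) × ℕ)
      (q := fun a x => memB g a.2 x == (memB g a.1.1 x && memB g a.1.2 x))
      (N := fun a => a.1.1 + a.1.2 + a.2) ?_ ?_
    · refine Computable₂.mk ?_
      have c2 : Computable (fun b : ((ℕ × ℕ) × ℕ) × ℕ => b.1.2) :=
        Computable.snd.comp Computable.fst
      have c11 : Computable (fun b : ((ℕ × ℕ) × ℕ) × ℕ => b.1.1.1) :=
        Computable.fst.comp (Computable.fst.comp Computable.fst)
      have c12 : Computable (fun b : ((ℕ × ℕ) × ℕ) × ℕ => b.1.1.2) :=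
        Computable.snd.comp (Computable.fst.comp Computable.fst)
      exact comp_beq (comp_memB hc c2 Computable.snd)
        (comp_and (comp_memB hc c11 Computable.snd) (comp_memB hc c12 Computable.snd))
    · exact comp_add (comp_add (Computable.fst.comp Computable.fst)
        (Computable.snd.comp Computable.fst)) Computable.snd
  · rintro ⟨m, n⟩ k
    rw [infT_iff]
    show _ ↔ k = (pres g hg h0).symm (pres g hg h0 m ⊓ pres g hg h0 n)
    rw [Equiv.eq_symm_apply]
    constructor
    · intro h
      apply Subtype.ext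
      rw [BooleanSubalgebra.val_inf, pres_val, pres_val, pres_val]
      exact h
    · intro h
      have h1 := congrArg Subtype.val h
      rw [BooleanSubalgebra.val_inf, pres_val, pres_val, pres_val] at h1
      exact h1

theorem comp_cpl {g : ℕ → ℕ} (hc : Computable g) (hg : Function.Injective g) (h0 : Tr g 0) :
    Computable (fun m : ℕ => (pres g hg h0).symm (pres g hg h0 m)ᶜ) := by
  refine comp_of_unique (P := cplT g) ?_ ?_
  · refine Computable₂.mk ?_
    unfold cplT
    refine comp_ball (α := ℕ × ℕ)
      (q := fun a x => memB g a.2 x == !(memB g a.1 x))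
      (N := fun a => a.1 + a.2 + 1) ?_ ?_
    · refine Computable₂.mk ?_
      exact comp_beq (comp_memB hc (Computable.snd.comp Computable.fst) Computable.snd)
        (comp_not (comp_memB hc (Computable.fst.comp Computable.fst) Computable.snd))
    · exact Computable.succ.comp (comp_add Computable.fst Computable.snd)
  · intro m k
    rw [cplT_iff g h0]
    rw [Equiv.eq_symm_apply]
    constructor
    · intro h
      apply Subtype.ext
      rw [BooleanSubalgebra.val_compl, pres_val, pres_val]
      exact h
    · intro h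
      have h1 := congrArg Subtype.val h
      rw [BooleanSubalgebra.val_compl, pres_val, pres_val] at h1
      exact h1

theorem comp_sup {g : ℕ → ℕ} (hc : Computable g) (hg : Function.Injective g) (h0 : Tr g 0) :
    Computable₂ (fun m n : ℕ => (pres g hg h0).symm (pres g hg h0 m ⊔ pres g hg h0 n)) := by
  have h1 : Computable₂ (fun m n : ℕ => (pres g hg h0).symm
      (pres g hg h0 ((pres g hg h0).symm
        (pres g hg h0 ((pres g hg h0).symm (pres g hg h0 m)ᶜ) ⊓
         pres g hg h0 ((pres g hg h0).symm (pres g hg h0 n)ᶜ))))ᶜ) := by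
    refine (comp_cpl hc hg h0).comp₂ ?_
    exact (comp_inf hc hg h0).comp₂ ((comp_cpl hc hg h0).comp₂ Computable.fst.to₂)
      ((comp_cpl hc hg h0).comp₂ Computable.snd.to₂)
  refine h1.of_eq ?_
  intro p
  obtain ⟨m, n⟩ := p
  simp [compl_inf]

end Pool.Agent.R665.IA
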