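import Mathlib

set_option autoImplicit false

namespace Pool.Agent.R665.IA

open Finset

variable {L : Type*} [LinearOrder L]

/-- the set coded by a finite set of cut points (symmetric difference of up-sets) -/
def X (S : Finset L) : Set L := {x | Odd (S.filter (fun s => s ≤ x)).card}

theorem card_symmDiff_odd {α : Type*} [DecidableEq α] (A B : Finset α) :
    Odd (symmDiff A B).card ↔ Xor (Odd A.card) (Odd B.card) := by
  have h1 : (symmDiff A B).card + 2 * (A ∩ B).card = A.card + B.card := by
    have e1 : (symmDiff A B).card = (A \ B).card + (B \ A).card := by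
      rw [symmDiff_def]
      have : Disjoint (A \ B) (B \ A) := by
        rw [Finset.disjoint_left]
        intro x hx hy
        simp at hx hy
        exact hx.2 hy.1
      simpa using Finset.card_union_of_disjoint this
    have e2 : (A \ B).card + (A ∩ B).card = A.card := Finset.card_sdiff_add_card_inter A B
    have e3 : (B \ A).card + (B ∩ A).card = B.card := Finset.card_sdiff_add_card_inter B A
    rw [Finset.inter_comm B A] at e3
    omega
  have h2 : (symmDiff A B).card % 2 = (A.card + B.card) % 2 := by omega
  rw [Nat.odd_iff, Nat.odd_iff, Nat.odd_iff, h2]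
  rw [xor_def]
  omega

theorem mem_X_symmDiff (S T : Finset L) (x : L) :
    x ∈ X (symmDiff S T) ↔ Xor (x ∈ X S) (x ∈ X T) := by
  unfold X
  simp only [Set.mem_ofPred_eq]
  rw [← card_symmDiff_odd]
  have : (symmDiff S T).filter (fun s => s ≤ x)
      = symmDiff (S.filter (fun s => s ≤ x)) (T.filter (fun s => s ≤ x)) := by
    ext s
    simp only [Finset.mem_filter, Finset.mem_symmDiff]
    tauto
  rw [this]

theorem X_empty : X (∅ : Finset L) = ∅ := by
  ext x; simp [X]

theorem mem_X_singleton (s x : L) : x ∈ X ({s} : Finset L) ↔ s ≤ x := by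
  unfold X
  simp only [Set.mem_ofPred_eq]
  by_cases h : s ≤ x
  · simp [Finset.filter_singleton, h]
  · simp [Finset.filter_singleton, h]

theorem X_injective : Function.Injective (X : Finset L → Set L) := by
  intro S T h
  have h0 : symmDiff S T = ∅ := by
    by_contra hne
    obtain hne := Finset.nonempty_iff_ne_empty.2 hne
    set m := (symmDiff S T).min' hne with hm
    have hmem : m ∈ X (symmDiff S T) := by
      unfold X
      simp only [Set.mem_ofPred_eq]
      have : (symmDiff S T).filter (fun s => s ≤ m) = {m} := by
        ext s
        simp only [Finset.mem_filter, Finset.mem_singleton]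
        constructor
        · rintro ⟨h1, h2⟩
          exact le_antisymm h2 (Finset.min'_le _ _ h1)
        · rintro rfl
          exact ⟨Finset.min'_mem _ _, le_refl _⟩
      rw [this]; simp
    rw [mem_X_symmDiff, h] at hmem
    simp [Xor] at hmem
  exact symmDiff_eq_bot.1 h0

/-- finite or cofinite -/
def FC {T : Type*} (A : Set T) : Prop := A.Finite ∨ Aᶜ.Finite

theorem FC.compl {T : Type*} {A : Set T} (h : FC A) : FC Aᶜ := by
  rcases h with h | h
  · right; simpa using h
  · left; exact h

theorem FC.inter {T : Type*} {A B : Set T} (hA : FC A) (hB : FC B) : FC (A ∩ B) := by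
  rcases hA with h | h
  · left; exact h.subset Set.inter_subset_left
  · rcases hB with h' | h'
    · left; exact h'.subset Set.inter_subset_right
    · right; rw [Set.compl_inter]; exact h.union h'

theorem FC.union {T : Type*} {A B : Set T} (hA : FC A) (hB : FC B) : FC (A ∪ B) := by
  have := (hA.compl.inter hB.compl).compl
  simpa [Set.compl_inter] using this

theorem FC.xor {T : Type*} {A B C : Set T} (hA : FC A) (hB : FC B)
    (h : ∀ x, x ∈ C ↔ Xor (x ∈ A) (x ∈ B)) : FC C := by
  have : C = (A ∩ Bᶜ) ∪ (B ∩ Aᶜ) := by
    ext x; rw [h x, xor_def]; simp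
  rw [this]
  exact (hA.inter hB.compl).union (hB.inter hA.compl)

theorem X_FC (hL : ∀ s : L, (Set.Iio s).Finite ∨ (Set.Ici s).Finite) (S : Finset L) :
    FC (X S) := by
  classical
  induction S using Finset.induction_on with
  | empty => rw [X_empty]; left; exact Set.finite_empty
  | @insert a S ha ih =>
      have h1 : FC (X ({a} : Finset L)) := by
        have : X ({a} : Finset L) = Set.Ici a := by
          ext x; rw [mem_X_singleton]; simp
        rw [this]
        rcases hL a with h | h
        · right; simpa using h
        · left; exact h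
      refine FC.xor h1 ih (fun x => ?_)
      rw [← mem_X_symmDiff]
      have : symmDiff ({a} : Finset L) S = insert a S := by
        ext y
        simp only [Finset.mem_symmDiff, Finset.mem_singleton, Finset.mem_insert]
        constructor
        · rintro (⟨rfl, _⟩ | ⟨h, _⟩)
          · left; rfl
          · right; exact h
        · rintro (rfl | h)
          · left; exact ⟨rfl, ha⟩
          · right; exact ⟨h, fun e => ha (e ▸ h)⟩
      rw [this]

/-- every finite or cofinite set is coded, in an order with least element and successors -/
theorem exists_X (b : L) (hb : ∀ x, b ≤ x) (hsucc : ∀ a : L, (∀ x, x ≤ a) ∨ ∃ c, a ⋖ c)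
    {A : Set L} (hA : FC A) : ∃ S : Finset L, X S = A := by
  classical
  have hfin : ∀ A : Set L, A.Finite → ∃ S : Finset L, X S = A := by
    intro A hA
    induction A, hA using Set.Finite.induction_on with
    | empty => exact ⟨∅, X_empty⟩
    | @insert a A ha _ ih =>
        obtain ⟨S, hS⟩ := ih
        have h1 : ∃ T : Finset L, X T = {a} := by
          rcases hsucc a with h | ⟨c, hc⟩
          · refine ⟨{a}, ?_⟩
            ext x
            rw [mem_X_singleton]
            simp only [Set.mem_singleton_iff]
            exact ⟨fun h1 => le_antisymm (h x) h1, fun h1 => h1 ▸ le_refl _⟩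
          · refine ⟨symmDiff {a} {c}, ?_⟩
            ext x
            rw [mem_X_symmDiff, mem_X_singleton, mem_X_singleton]
            simp only [Set.mem_singleton_iff]
            constructor
            · rintro (⟨h1, h2⟩ | ⟨h1, h2⟩)
              · by_contra hne
                exact hc.2 (lt_of_le_of_ne h1 (Ne.symm hne)) (not_le.1 h2)
              · exact absurd (hc.1.le.trans h1) h2
            · rintro rfl
              left
              exact ⟨le_refl _, not_le.2 hc.1⟩
        obtain ⟨T, hT⟩ := h1
        refine ⟨symmDiff T S, ?_⟩
        ext x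
        rw [mem_X_symmDiff, hT, hS]
        simp only [Set.mem_singleton_iff, Set.mem_insert_iff]
        constructor
        · rintro (⟨h1, _⟩ | ⟨h1, _⟩)
          · left; exact h1
          · right; exact h1
        · rintro (h1 | h1)
          · left; exact ⟨h1, h1 ▸ ha⟩
          · right; exact ⟨h1, fun e => ha (e ▸ h1)⟩
  rcases hA with h | h
  · exact hfin A h
  · obtain ⟨S, hS⟩ := hfin _ h
    refine ⟨symmDiff {b} S, ?_⟩
    ext x
    rw [mem_X_symmDiff, mem_X_singleton, hS]
    have := hb x
    simp [Xor, this]

/-- the sets of the interval algebra, in the form used in the frozen statement -/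
def Alg (L : Type*) [LinearOrder L] : Set (Set L) :=
  {A : Set L | ∃ S : Finset L, ∃ b : Bool,
              A = {x : L | Xor (b = true) (Odd (S.filter (fun s => s ≤ x)).card)}}

theorem nat_Alg : Alg ℕ = {A : Set ℕ | FC A} := by
  ext A
  constructor
  · rintro ⟨S, b, rfl⟩
    have h1 : FC (X S) := X_FC (fun s => Or.inl (Set.finite_Iio s)) S
    have h2 : FC ({x : ℕ | b = true} : Set ℕ) := by
      cases b
      · left; simp
      · right; simp
    exact FC.xor h2 h1 (fun x => Iff.rfl)
  · intro hA
    obtain ⟨S, hS⟩ := exists_X (0 : ℕ) (fun x => Nat.zero_le x)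
      (fun a => Or.inr ⟨a + 1, Order.covBy_add_one a⟩) hA
    refine ⟨S, false, ?_⟩
    rw [← hS]
    ext x
    simp [X, Xor]

end Pool.Agent.R665.IA
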