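import Pool.Agent.R665.IA.Ord

set_option autoImplicit false

namespace Pool.Agent.R665.IA

/-- `s` still looks like a true stage at time `t` -/
def App (g : ℕ → ℕ) (s t : ℕ) : Prop := ∀ r, s < r → r ≤ t → g s < g r

instance (g : ℕ → ℕ) (s t : ℕ) : Decidable (App g s t) :=
  decidable_of_iff (∀ r ≤ t, s < r → g s < g r) (by
    unfold App; constructor
    · intro h r h1 h2; exact h r h2 h1
    · intro h r h1 h2; exact h r h2 h1)

/-- the true-stage order -/
def TLe (g : ℕ → ℕ) (s t : ℕ) : Prop := (s ≤ t ∧ App g s t) ∨ (t < s ∧ ¬ App g t s)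

instance (g : ℕ → ℕ) (s t : ℕ) : Decidable (TLe g s t) := by unfold TLe; infer_instance

theorem App.trans {g : ℕ → ℕ} {s t u : ℕ} (h1 : App g s t) (h2 : App g t u) (hst : s ≤ t) :
    App g s u := by
  intro r hr hru
  rcases le_or_gt r t with h | h
  · exact h1 r hr h
  · have h3 := h2 r h hru
    rcases eq_or_lt_of_le hst with e | e
    · rw [e]; exact h3
    · exact (h1 t e le_rfl).trans h3

theorem App.mono {g : ℕ → ℕ} {s t u : ℕ} (h : App g s u) (htu : t ≤ u) : App g s t :=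
  fun r hr hrt => h r hr (hrt.trans htu)

theorem App.refl (g : ℕ → ℕ) (s : ℕ) : App g s s := fun _ h1 h2 => absurd h1 (not_lt.2 h2)

theorem TLe.refl (g : ℕ → ℕ) (s : ℕ) : TLe g s s := Or.inl ⟨le_rfl, App.refl g s⟩

theorem TLe.trans {g : ℕ → ℕ} {s t u : ℕ} (h1 : TLe g s t) (h2 : TLe g t u) : TLe g s u := by
  rcases h1 with ⟨a1, b1⟩ | ⟨a1, b1⟩ <;> rcases h2 with ⟨a2, b2⟩ | ⟨a2, b2⟩
  · exact Or.inl ⟨a1.trans a2, b1.trans b2 a1⟩
  · rcases le_or_gt s u with h | h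
    · exact Or.inl ⟨h, b1.mono a2.le⟩
    · exact Or.inr ⟨h, fun h3 => b2 (h3.trans b1 h.le)⟩
  · rcases le_or_gt s u with h | h
    · exact absurd (b2.mono h) b1
    · exact Or.inr ⟨h, fun h3 => b1 (b2.trans h3 a2)⟩
  · exact Or.inr ⟨a2.trans a1, fun h3 => b2 (h3.mono a1.le)⟩

theorem TLe.antisymm {g : ℕ → ℕ} {s t : ℕ} (h1 : TLe g s t) (h2 : TLe g t s) : s = t := by
  rcases h1 with ⟨a1, b1⟩ | ⟨a1, b1⟩ <;> rcases h2 with ⟨a2, b2⟩ | ⟨a2, b2⟩
  · exact le_antisymm a1 a2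
  · exact absurd b1 b2
  · exact absurd b2 b1
  · exact absurd (a1.trans a2) (lt_irrefl _)

theorem TLe.total (g : ℕ → ℕ) (s t : ℕ) : TLe g s t ∨ TLe g t s := by
  rcases lt_trichotomy s t with h | h | h
  · by_cases h2 : App g s t
    · exact Or.inl (Or.inl ⟨h.le, h2⟩)
    · exact Or.inr (Or.inr ⟨h, h2⟩)
  · subst h; exact Or.inl (TLe.refl g s)
  · by_cases h2 : App g t s
    · exact Or.inr (Or.inl ⟨h.le, h2⟩)
    · exact Or.inl (Or.inr ⟨h, h2⟩)

/-- the true-stage order on the natural numbers as a type -/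
def TS (_ : ℕ → ℕ) : Type := ℕ

instance (g : ℕ → ℕ) : LinearOrder (TS g) where
  le s t := TLe g s t
  le_refl s := TLe.refl g s
  le_trans _ _ _ h1 h2 := TLe.trans h1 h2
  le_antisymm _ _ h1 h2 := TLe.antisymm h1 h2
  le_total s t := TLe.total g s t
  toDecidableLE := fun s t => inferInstanceAs (Decidable (TLe g s t))

theorem TS.le_iff (g : ℕ → ℕ) (s t : TS g) : s ≤ t ↔ TLe g s t := Iff.rfl

/-- true stages -/
def Tr (g : ℕ → ℕ) (s : ℕ) : Prop := ∀ t, s < t → g s < g t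

theorem Tr.app {g : ℕ → ℕ} {s : ℕ} (h : Tr g s) (t : ℕ) : App g s t := fun r hr _ => h r hr

theorem finite_of_lt {g : ℕ → ℕ} {A : Set (TS g)} (N : ℕ) (h : ∀ x ∈ A, (show ℕ from x) < N) :
    A.Finite :=
  Set.Finite.subset (Set.finite_Iio N : (Set.Iio N : Set ℕ).Finite) (fun x hx => h x hx)

theorem Tr.finite {g : ℕ → ℕ} {s : ℕ} (h : Tr g s) : (Set.Iio (show TS g from s)).Finite := by
  refine finite_of_lt s (fun x hx => ?_)
  by_contra hc
  have hc' : s ≤ (show ℕ from x) := not_lt.1 hc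
  have h2 : TLe g s x := Or.inl ⟨hc', h.app _⟩
  exact absurd ((TS.le_iff g _ _).2 h2) (not_le.2 hx)

theorem not_Tr_finite {g : ℕ → ℕ} {s : ℕ} (h : ¬ Tr g s) :
    (Set.Ici (show TS g from s)).Finite := by
  unfold Tr at h
  push Not at h
  obtain ⟨t0, h1, h2⟩ := h
  refine finite_of_lt t0 (fun x hx => ?_)
  by_contra hc
  have hc' : t0 ≤ (show ℕ from x) := not_lt.1 hc
  have h3 : ¬ App g s x := fun h4 => absurd (h4 t0 h1 hc') (not_lt.2 h2)
  have h4 : TLe g s x := hx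
  rcases h4 with ⟨_, h5⟩ | ⟨h5, _⟩
  · exact h3 h5
  · exact absurd (h1.trans_le hc') (not_lt.2 (le_of_lt h5))

theorem exists_Tr {g : ℕ → ℕ} (hg : Function.Injective g) (N : ℕ) : ∃ s, N ≤ s ∧ Tr g s := by
  classical
  have hne : ∃ v, ∃ s, N ≤ s ∧ g s = v := ⟨g N, N, le_rfl, rfl⟩
  obtain ⟨s, hs, hv⟩ := Nat.find_spec hne
  refine ⟨s, hs, fun t ht => ?_⟩
  have h1 : Nat.find hne ≤ g t := Nat.find_min' hne ⟨t, hs.trans ht.le, rfl⟩
  rw [← hv] at h1
  exact lt_of_le_of_ne h1 (fun e => absurd (hg e) ht.ne)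

theorem TS_fin {g : ℕ → ℕ} (s : TS g) : (Set.Iio s).Finite ∨ (Set.Ici s).Finite := by
  by_cases h : Tr g s
  · exact Or.inl h.finite
  · exact Or.inr (not_Tr_finite h)

theorem exists_covBy_of_finite {L : Type*} [LinearOrder L] {a c : L} (hac : a < c)
    (hf : (Set.Ioc a c).Finite) : ∃ b, a ⋖ b := by
  obtain ⟨b, hb, hmin⟩ := Set.exists_min_image (Set.Ioc a c) id hf ⟨c, hac, le_rfl⟩
  refine ⟨b, hb.1, fun x h1 h2 => ?_⟩
  have := hmin x ⟨h1, h2.le.trans hb.2⟩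
  exact absurd this (not_le.2 h2)

theorem TS_succ {g : ℕ → ℕ} (hg : Function.Injective g) (a : TS g) :
    (∀ x, x ≤ a) ∨ ∃ c, a ⋖ c := by
  by_cases h : Tr g a
  · right
    obtain ⟨c, hc, hc2⟩ := exists_Tr hg ((show ℕ from a) + 1)
    have hlt : (show ℕ from a) < c := hc
    have h1 : a < (show TS g from c) := by
      refine lt_of_le_of_ne (Or.inl ⟨hlt.le, h.app _⟩) (fun e => ?_)
      exact absurd e hlt.ne
    refine exists_covBy_of_finite h1 ?_
    refine Set.Finite.subset ((hc2.finite).union (Set.finite_singleton (show TS g from c))) ?_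
    rintro x ⟨_, hx⟩
    rcases hx.lt_or_eq with h3 | h3
    · left; exact h3
    · right; exact h3
  · by_cases hm : ∀ x, x ≤ a
    · exact Or.inl hm
    · right
      push Not at hm
      obtain ⟨c, hc⟩ := hm
      refine exists_covBy_of_finite hc ?_
      exact Set.Finite.subset (not_Tr_finite h) (fun x hx => hx.1.le)

theorem TS_bot {g : ℕ → ℕ} (h0 : Tr g 0) (x : TS g) : (show TS g from (0 : ℕ)) ≤ x :=
  Or.inl ⟨Nat.zero_le _, h0.app _⟩

end Pool.Agent.R665.IA
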